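import Pool.Agent.H82.LB.Targets
import Pool.Agent.H18.G.WM

/-!
# Row CPU of lmb_modules: pieces in caps of any radius stay in the class
-/

set_option autoImplicit false

namespace Pool.Agent.H86.LB

open MeasureTheory Set
open scoped ENNReal NNReal RealInnerProductSpace
open Pool.Agent.H83.G Pool.Agent.H82.LB Pool.Agent.H18.G.WM

variable {m : ℕ}

theorem lo_sub' (η : E m) (s : ℝ) (z z' : Z m) :
    Lo η s (z - z') = Lo η s z - Lo η s z' := by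
  unfold Lo
  refine Prod.ext ?_ (Prod.ext ?_ ?_)
  · simp only [Prod.fst_sub, Prod.snd_sub, inner_sub_left]
    ring
  · simp only [Prod.fst_sub, Prod.snd_sub]
    module
  · simp only [Prod.snd_sub]
    ring

theorem tp_swap' (φ ψ : E m → ℂ) (η c : E m) (s t : ℝ) (G : Z m → ℂ) (z : Z m) :
    TP φ η s (fun ζ => cp ψ c t ζ * G ζ) z = TP ψ c t (fun ζ => cp φ η s ζ * G ζ) z := by
  unfold TP
  congr 1
  funext ζ
  ring

theorem tp_smul' (a : ℂ) (φ : E m → ℂ) (η : E m) (s : ℝ) (G : Z m → ℂ) (z : Z m) :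
    TP (fun x => a * φ x) η s G z = a * TP φ η s G z := by
  unfold TP TF
  rw [← integral_const_mul]
  congr 1
  funext ζ
  unfold cp
  ring

theorem pf_CPU (hKER : T_KER) (hPUB : T_PUB) (hCPS : T_CPS) (hWT2 : T_WT2) (hSCH : T_SCH) :
    T_CPU := by
  intro m L β hβ hL
  obtain ⟨Cb, hCb1, hCb⟩ := hPUB m L β hβ
  obtain ⟨C0, hC0⟩ := hKER m L
  obtain ⟨C2, -, -, hC2⟩ := hWT2 m L hL
  have hCb0 : 0 < Cb := by linarith
  obtain ⟨B, hB⟩ : ∃ B : ℝ, B = Cb ^ 2 * (C0 ^ 2 * C2 * C2) := ⟨_, rfl⟩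
  have hB0 : 0 ≤ B := by rw [hB]; positivity
  refine ⟨1 + B, by linarith, fun κ R A σ G c hκ0 hκ hR hA hσ hG => ?_⟩
  obtain ⟨hG1, hG2, hG3⟩ := hG
  have hG4 : ∀ ζ, G ζ ≠ 0 → 1 / 4 ≤ ζ.1 ∧ ζ.1 ≤ 8 := by
    intro ζ hζ
    obtain ⟨h1, h2, -, -⟩ := hG2 ζ hζ
    constructor <;> linarith
  refine ⟨hCPS m β c σ G hβ.1 hσ hG1 fun ζ hζ => (hG4 ζ hζ).1, fun ζ hζ => hG2 ζ fun h => hζ (by
    beta_reduce
    rw [h, mul_zero]), fun φ hφ η s r z₀ hs hs1 hr hrR => ?_⟩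
  obtain ⟨S, hS⟩ : ∃ S : ℝ, S = A ^ 2 * (R * s ^ 2 / r) ^ m * (r / s) ^ (m + 2) := ⟨_, rfl⟩
  have hS0 : 0 ≤ S := by
    rw [hS]
    positivity
  have hgoal : ∀ X : ℝ≥0∞, X ≤ ENNReal.ofReal (B * S) → X ≤ ENNReal.ofReal (((1 + B) * A) ^ 2 *
      (R * s ^ 2 / r) ^ m * (r / s) ^ (m + 2)) := by
    intro X hX
    refine hX.trans (ENNReal.ofReal_le_ofReal ?_)
    have h1 : ((1 + B) * A) ^ 2 * (R * s ^ 2 / r) ^ m * (r / s) ^ (m + 2) = (1 + B) ^ 2 * S := by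
      rw [hS]
      ring
    rw [h1]
    refine mul_le_mul_of_nonneg_right ?_ hS0
    nlinarith
  apply hgoal
  obtain ⟨Gs, hGs⟩ : ∃ Gs : Z m → ℂ, Gs = fun ζ => cp φ η s ζ * G ζ := ⟨_, rfl⟩
  have hGsT : TC Gs := by
    rw [hGs]
    exact hCPS m φ η s G hφ.1 hs hG1 fun ζ hζ => (hG4 ζ hζ).1
  have hGsS : ∀ ζ, Gs ζ ≠ 0 → 1 / 4 ≤ ζ.1 ∧ ζ.1 ≤ 8 := by
    intro ζ hζ
    have h1 : G ζ ≠ 0 := fun h => hζ (by rw [hGs]; beta_reduce; rw [h, mul_zero])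
    exact hG4 ζ h1
  have hcls : ∀ z₁, ∫⁻ z in pl η s r z₁, ‖TF Gs z‖ₑ ^ 2 ≤ ENNReal.ofReal S := by
    intro z₁
    rw [hS, hGs]
    exact hG3 φ hφ η s r z₁ hs hs1 hr hrR
  have hc := (hSCH m Gs hGsT).1
  have hsh := continuous_sh c σ
  obtain ⟨w, hw⟩ : ∃ w : ℝ × E m → ℝ≥0∞, w = fun u => ENNReal.ofReal (((1 + ‖u‖) ^ L)⁻¹) :=
    ⟨_, rfl⟩
  have hwm : Measurable w := by
    rw [hw]
    fun_prop
  have hC2' : ∫⁻ u, w u ≤ C2 := by
    rw [hw]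
    exact hC2
  have hplm : ∀ z₁ : Z m, MeasurableSet (pl η s r z₁) := by
    intro z₁
    have h1 : Continuous fun z : Z m => ‖Lo η s (z - z₁)‖ := by
      unfold Lo
      fun_prop
    exact measurableSet_le h1.measurable measurable_const
  have step1 : ∀ z, ‖TP φ η s (fun ζ => cp β c σ ζ * G ζ) z‖ₑ ^ 2 ≤
      ENNReal.ofReal (Cb ^ 2) * ((C0 : ℝ≥0∞) ^ 2 * C2) *
        ∫⁻ u, w u * ‖TF Gs (z - sh c σ u)‖ₑ ^ 2 := by
    intro z
    have h3 := hC0 _ hCb c σ Gs hσ hGsT hGsS z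
    have h4 := pow_le_pow_left' h3 2
    have h5 : TP φ η s (fun ζ => cp β c σ ζ * G ζ) z =
        (Cb : ℂ) * TP (fun x => ((Cb⁻¹ : ℝ) : ℂ) * β x) c σ Gs z := by
      rw [tp_swap', ← hGs, tp_smul', ← mul_assoc]
      have e1 : (Cb : ℂ) * ((Cb⁻¹ : ℝ) : ℂ) = 1 := by
        rw [← Complex.ofReal_mul, mul_inv_cancel₀ hCb0.ne', Complex.ofReal_one]
      rw [e1, one_mul]
    rw [h5, enorm_mul, mul_pow]
    have e2 : ‖(Cb : ℂ)‖ₑ ^ 2 = ENNReal.ofReal (Cb ^ 2) := by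
      rw [← ofReal_norm, Complex.norm_real, Real.norm_eq_abs, abs_of_pos hCb0,
        ← ENNReal.ofReal_pow hCb0.le]
    rw [e2, mul_assoc]
    refine mul_le_mul' le_rfl (h4.trans ?_)
    rw [mul_pow, mul_assoc]
    refine mul_le_mul' le_rfl ?_
    have hm : Measurable fun u : ℝ × E m => ‖TF Gs (z - sh c σ u)‖ₑ :=
      (hc.comp (continuous_const.sub hsh)).measurable.enorm
    have h6 := (cs volume hwm hm).trans (mul_le_mul' hC2' le_rfl)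
    rw [hw] at h6 ⊢
    exact h6
  have step2 : ∀ u, ∫⁻ z in pl η s r z₀, ‖TF Gs (z - sh c σ u)‖ₑ ^ 2 ≤ ENNReal.ofReal S := by
    intro u
    refine le_trans (le_of_eq ?_) (hcls (z₀ - sh c σ u))
    rw [← lintegral_indicator (hplm _), ← lintegral_indicator (hplm _),
      ← lintegral_sub_right_eq_self (fun z => (pl η s r (z₀ - sh c σ u)).indicator
        (fun z => ‖TF Gs z‖ₑ ^ 2) z) (sh c σ u)]
    refine lintegral_congr fun z => ?_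
    have e1 : z ∈ pl η s r z₀ ↔ z - sh c σ u ∈ pl η s r (z₀ - sh c σ u) := by
      unfold pl
      rw [mem_ofPred_eq, mem_ofPred_eq, sub_sub_sub_cancel_right]
    by_cases hz : z ∈ pl η s r z₀
    · rw [indicator_of_mem hz, indicator_of_mem (e1.1 hz)]
    · rw [indicator_of_notMem hz, indicator_of_notMem fun h => hz (e1.2 h)]
  have hmz : Measurable (Function.uncurry fun (z : Z m) (u : ℝ × E m) =>
      w u * ‖TF Gs (z - sh c σ u)‖ₑ ^ 2) := by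
    have h5 : Continuous fun q : Z m × (ℝ × E m) => TF Gs (q.1 - sh c σ q.2) :=
      hc.comp (continuous_fst.sub (hsh.comp continuous_snd))
    exact (hwm.comp measurable_snd).mul (h5.measurable.enorm.pow_const 2)
  have hK : ENNReal.ofReal (Cb ^ 2) * ((C0 : ℝ≥0∞) ^ 2 * C2) ≠ ∞ := by finiteness
  calc ∫⁻ z in pl η s r z₀, ‖TP φ η s (fun ζ => cp β c σ ζ * G ζ) z‖ₑ ^ 2
      ≤ ∫⁻ z in pl η s r z₀, ENNReal.ofReal (Cb ^ 2) * ((C0 : ℝ≥0∞) ^ 2 * C2) *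
        ∫⁻ u, w u * ‖TF Gs (z - sh c σ u)‖ₑ ^ 2 := lintegral_mono fun z => step1 z
    _ = ENNReal.ofReal (Cb ^ 2) * ((C0 : ℝ≥0∞) ^ 2 * C2) *
        ∫⁻ z in pl η s r z₀, ∫⁻ u, w u * ‖TF Gs (z - sh c σ u)‖ₑ ^ 2 :=
        lintegral_const_mul' _ _ hK
    _ = ENNReal.ofReal (Cb ^ 2) * ((C0 : ℝ≥0∞) ^ 2 * C2) *
        ∫⁻ u, ∫⁻ z in pl η s r z₀, w u * ‖TF Gs (z - sh c σ u)‖ₑ ^ 2 := by
        rw [lintegral_lintegral_swap hmz.aemeasurable]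
    _ ≤ ENNReal.ofReal (Cb ^ 2) * ((C0 : ℝ≥0∞) ^ 2 * C2) *
        ∫⁻ u, w u * ENNReal.ofReal S := by
        refine mul_le_mul' le_rfl (lintegral_mono fun u => ?_)
        have e2 : ∫⁻ z in pl η s r z₀, w u * ‖TF Gs (z - sh c σ u)‖ₑ ^ 2 =
            w u * ∫⁻ z in pl η s r z₀, ‖TF Gs (z - sh c σ u)‖ₑ ^ 2 := by
          rw [hw]
          exact lintegral_const_mul' _ _ ENNReal.ofReal_ne_top
        simp only []
        rw [e2]
        exact mul_le_mul' le_rfl (step2 u)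
    _ ≤ ENNReal.ofReal (Cb ^ 2) * ((C0 : ℝ≥0∞) ^ 2 * C2) * (C2 * ENNReal.ofReal S) := by
        refine mul_le_mul' le_rfl ?_
        rw [lintegral_mul_const _ hwm]
        exact mul_le_mul' hC2' le_rfl
    _ = ENNReal.ofReal (B * S) := by
        rw [hB, ENNReal.ofReal_mul (by positivity), ENNReal.ofReal_mul (by positivity),
          ENNReal.ofReal_mul (by positivity), ENNReal.ofReal_mul (by positivity),
          ENNReal.ofReal_pow (by positivity) 2, ENNReal.ofReal_pow (NNReal.coe_nonneg C0) 2,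
          ENNReal.ofReal_coe_nnreal, ENNReal.ofReal_coe_nnreal]
        ring

end Pool.Agent.H86.LB
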