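import Pool.Agent.H82.LB.Targets
import Pool.Agent.H83.G.Chain

/-!
# Row LEMF of lmb_modules: Lemma B for functions
-/

set_option autoImplicit false

namespace Pool.Agent.H86.LB

open MeasureTheory Set
open scoped ENNReal NNReal RealInnerProductSpace
open Pool.Agent.H83.G Pool.Agent.H82.LB

theorem sumsq {m : ℕ} (hPUS : T_PUS) {β : E m → ℂ} (hβ : IsPU β) {s : ℝ} (hs : 0 < s)
    (J : Finset (Fin m → ℤ)) (x : E m) :
    ∑ k ∈ J, ‖β (s⁻¹ • (x - ctr s k))‖ ^ 2 ≤ 1 := by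
  have h1 := ((hPUS m).1 β s hβ hs).1 x
  have h2 : ∀ y : E m, 0 ≤ (β y).re ∧ ‖β y‖ ^ 2 ≤ (β y).re := by
    intro y
    obtain ⟨r, hr0, hr1, hr⟩ := hβ.2.2.1 y
    rw [hr, Complex.norm_real, Real.norm_eq_abs, abs_of_nonneg hr0, Complex.ofReal_re]
    exact ⟨hr0, by nlinarith⟩
  have h3 := Complex.hasSum_re h1
  rw [Complex.one_re] at h3
  calc ∑ k ∈ J, ‖β (s⁻¹ • (x - ctr s k))‖ ^ 2
      ≤ ∑ k ∈ J, (β (s⁻¹ • (x - ctr s k))).re := Finset.sum_le_sum fun k _ => (h2 _).2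
    _ ≤ 1 := sum_le_hasSum J (fun k _ => (h2 _).1) h3

theorem ctr_le {s : ℝ} (hs : 0 < s) (hs1 : s ≤ 1) {k : Fin 2 → ℤ} (hk : k ∈ Ks 2 s) :
    ‖ctr s k‖ ≤ 11 := by
  have h1 : ∀ i, |s / 3 * (k i : ℝ)| ≤ 10 / 3 := by
    intro i
    unfold Ks at hk
    rw [Fintype.mem_piFinset] at hk
    have h2 := Finset.mem_Icc.1 (hk i)
    have h3 : ((⌈3 * (((2 : ℕ) : ℝ) + 1) / s⌉ : ℤ) : ℝ) < 9 / s + 1 := by
      have h4 := Int.ceil_lt_add_one (3 * (((2 : ℕ) : ℝ) + 1) / s)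
      have h5 : 3 * (((2 : ℕ) : ℝ) + 1) / s = 9 / s := by
        congr 1
        norm_num
      rw [h5] at h4 ⊢
      exact h4
    have h6 : |(k i : ℝ)| ≤ ((⌈3 * (((2 : ℕ) : ℝ) + 1) / s⌉ : ℤ) : ℝ) := by
      rw [abs_le]
      constructor
      · have := h2.1
        exact_mod_cast this
      · have := h2.2
        exact_mod_cast this
    rw [abs_mul, abs_of_pos (by positivity : (0 : ℝ) < s / 3)]
    calc s / 3 * |(k i : ℝ)| ≤ s / 3 * (9 / s + 1) := by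
          refine mul_le_mul_of_nonneg_left ?_ (by positivity)
          linarith
      _ = 3 + s / 3 := by
          field_simp
          norm_num
      _ ≤ 10 / 3 := by linarith
  have h7 : ‖ctr s k‖ ^ 2 ≤ 200 / 9 := by
    rw [EuclideanSpace.norm_sq_eq, Fin.sum_univ_two]
    have h8 : ∀ i, ‖(ctr s k) i‖ ^ 2 ≤ 100 / 9 := by
      intro i
      have h9 : (ctr s k) i = s / 3 * (k i : ℝ) := by
        unfold ctr
        simp only [PiLp.smul_apply, smul_eq_mul]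
        norm_num
      rw [h9, Real.norm_eq_abs]
      have := h1 i
      have h10 := abs_nonneg (s / 3 * (k i : ℝ))
      nlinarith
    linarith [h8 0, h8 1]
  have := norm_nonneg (ctr s k)
  nlinarith

theorem intsum {m : ℕ} (hPUS : T_PUS) (hCPS : T_CPS) {β : E m → ℂ} (hβ : IsPU β) {s : ℝ}
    (hs : 0 < s) (J : Finset (Fin m → ℤ)) {G : Z m → ℂ} (hG : TC G)
    (hG4 : ∀ ζ, G ζ ≠ 0 → 1 / 4 ≤ ζ.1) :
    ∑ k ∈ J, ∫ ζ, ‖cp β (ctr s k) s ζ * G ζ‖ ^ 2 ≤ ∫ ζ, ‖G ζ‖ ^ 2 := by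
  have hint : ∀ F : Z m → ℂ, TC F → Integrable fun ζ => ‖F ζ‖ ^ 2 := by
    intro F hF
    refine Continuous.integrable_of_hasCompactSupport (hF.1.continuous.norm.pow 2) ?_
    exact hF.2.comp_left (g := fun z : ℂ => ‖z‖ ^ 2) (by simp)
  have h1 : ∀ k ∈ J, Integrable fun ζ => ‖cp β (ctr s k) s ζ * G ζ‖ ^ 2 := fun k _ =>
    hint _ (hCPS m β (ctr s k) s G hβ.1 hs hG hG4)
  rw [← integral_finsetSum J h1]
  refine integral_mono (integrable_finsetSum J h1) (hint G hG) fun ζ => ?_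
  have h2 := sumsq hPUS hβ hs J (ζ.1⁻¹ • ζ.2.1)
  have h3 : ∑ k ∈ J, ‖cp β (ctr s k) s ζ * G ζ‖ ^ 2 =
      (∑ k ∈ J, ‖β (s⁻¹ • (ζ.1⁻¹ • ζ.2.1 - ctr s k))‖ ^ 2) * ‖G ζ‖ ^ 2 := by
    rw [Finset.sum_mul]
    refine Finset.sum_congr rfl fun k _ => ?_
    rw [norm_mul, mul_pow]
    rfl
  show ∑ k ∈ J, ‖cp β (ctr s k) s ζ * G ζ‖ ^ 2 ≤ ‖G ζ‖ ^ 2
  rw [h3]
  have h4 : 0 ≤ ‖G ζ‖ ^ 2 := by positivity
  nlinarith

theorem pf_LEMF (hLEMB : T_LEMB) (hCPU : T_CPU) (hPUS : T_PUS) (hCPS : T_CPS) : T_LEMF := by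
  obtain ⟨cb₀, B, L₀, hcb, hB, hLB⟩ := hLEMB
  obtain ⟨-, -, D₀, hD₀, hcard, -⟩ := hPUS 2
  obtain ⟨D, hD⟩ : ∃ D : ℝ, D = 1 + D₀ := ⟨_, rfl⟩
  have hD1 : 1 ≤ D := by linarith
  have hBD : 1 ≤ B * D := by nlinarith
  obtain ⟨C₁, hC₁⟩ : ∃ C₁ : ℝ, C₁ = 32 * (B * D) := ⟨_, rfl⟩
  have hC32 : 32 ≤ C₁ := by linarith
  have hCB : 32 * B ≤ C₁ := by
    rw [hC₁]
    nlinarith
  refine ⟨cb₀, C₁, L₀ + 5, hcb, by linarith, fun L β hL hβ ε hε => ?_⟩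
  obtain ⟨δ₁, C, hδ₁, hC, hBd⟩ := hLB L (by omega) ε hε
  obtain ⟨Cp, hCp1, hCp⟩ := hCPU 2 L β hβ (by omega)
  have hCp0 : 0 < Cp := by linarith
  refine ⟨δ₁, C * Cp ^ (4 / 3 : ℝ), hδ₁, by positivity, fun R Λ K A H n G X hR hK hΛ hn hA hH hΛH
    hG hX hbr => ?_⟩
  have hK0 : 0 < K := by linarith
  have hK4 : 1 ≤ K ^ 4 := one_le_pow₀ hK
  obtain ⟨ρ, hρ⟩ : ∃ ρ : ℝ, ρ = (C₁ * K ^ 4)⁻¹ := ⟨_, rfl⟩
  have hCK : 1 ≤ C₁ * K ^ 4 := by nlinarith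
  have hρ0 : 0 < ρ := by rw [hρ]; positivity
  have hρ1 : ρ ≤ 1 := by rw [hρ]; exact inv_le_one_of_one_le₀ hCK
  have hCK1 : 1 ≤ C₁ * K := by nlinarith
  have hCKC : (0 : ℝ) ≤ C₁ := by linarith
  obtain ⟨M, hM⟩ : ∃ M : ℝ, M = D * (C₁ * K ^ 4) ^ 2 := ⟨_, rfl⟩
  have hM1 : 1 ≤ M := by
    rw [hM]
    have := one_le_pow₀ (n := 2) hCK
    nlinarith
  -- the conditions of Lemma B
  have c1 : (B * K * M) ^ B ≤ Λ := by
    refine le_trans ?_ hΛ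
    have e1 : B * K * M ≤ (C₁ * K) ^ (9 : ℝ) := by
      have e2 : (C₁ * K) ^ (9 : ℝ) = (C₁ * K) ^ 9 := by
        rw [← Real.rpow_natCast]
        norm_num
      rw [e2, hM]
      have e3 : B * K * (D * (C₁ * K ^ 4) ^ 2) = (B * D) * (C₁ ^ 2 * K ^ 9) := by ring
      have e4 : (C₁ * K) ^ 9 = C₁ ^ 7 * (C₁ ^ 2 * K ^ 9) := by ring
      rw [e3, e4]
      refine mul_le_mul_of_nonneg_right ?_ (by positivity)
      have e5 : B * D ≤ C₁ := by rw [hC₁]; linarith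
      have e6 : C₁ ≤ C₁ ^ 7 := le_self_pow₀ (by linarith) (by norm_num)
      linarith
    calc (B * K * M) ^ B ≤ ((C₁ * K) ^ (9 : ℝ)) ^ B :=
          Real.rpow_le_rpow (by positivity) e1 (by linarith)
      _ = (C₁ * K) ^ (9 * B) := by rw [← Real.rpow_mul (by linarith)]
      _ ≤ (C₁ * K) ^ C₁ := Real.rpow_le_rpow_of_exponent_le hCK1 (by linarith)
  have c2 : B * K ^ 4 * ρ ≤ 1 := by
    rw [hρ, ← div_eq_mul_inv, div_le_one (by positivity)]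
    refine mul_le_mul_of_nonneg_right ?_ (by positivity)
    linarith
  have hΛ1 : 1 ≤ Λ := le_trans (Real.one_le_rpow hCK1 hCKC) hΛ
  have c3 : Λ ^ (-(1 / 8) : ℝ) ≤ ρ := by
    rw [hρ, Real.rpow_neg (by linarith)]
    refine inv_anti₀ (by positivity) ?_
    have e1 : (C₁ * K) ^ (32 : ℝ) ≤ Λ :=
      (Real.rpow_le_rpow_of_exponent_le hCK1 hC32).trans hΛ
    have e2 : (C₁ * K) ^ (32 : ℝ) = ((C₁ * K) ^ 4) ^ (8 : ℝ) := by
      rw [← Real.rpow_natCast, ← Real.rpow_mul (by linarith)]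
      norm_num
    have e3 : C₁ * K ^ 4 ≤ (C₁ * K) ^ 4 := by
      rw [mul_pow]
      refine mul_le_mul_of_nonneg_right ?_ (by positivity)
      exact le_self_pow₀ (by linarith) (by norm_num)
    have e4 : (((C₁ * K) ^ 4) ^ (8 : ℝ)) ^ (1 / 8 : ℝ) = (C₁ * K) ^ 4 := by
      rw [← Real.rpow_mul (by positivity)]
      norm_num
    calc C₁ * K ^ 4 ≤ (C₁ * K) ^ 4 := e3
      _ = (((C₁ * K) ^ 4) ^ (8 : ℝ)) ^ (1 / 8 : ℝ) := e4.symm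
      _ ≤ Λ ^ (1 / 8 : ℝ) := by
          refine Real.rpow_le_rpow (by positivity) ?_ (by norm_num)
          rw [← e2]
          exact e1
  have c4 : ((Ks 2 ρ).card : ℝ) ≤ M := by
    have e1 := hcard ρ hρ0 hρ1
    rw [hM]
    refine e1.trans ?_
    have e2 : ρ⁻¹ = C₁ * K ^ 4 := by rw [hρ, inv_inv]
    rw [e2]
    refine mul_le_mul_of_nonneg_right ?_ (by positivity)
    linarith
  have hG4 : ∀ ζ, G ζ ≠ 0 → 1 / 4 ≤ ζ.1 := by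
    intro ζ hζ
    obtain ⟨h1, -, -, -⟩ := hG.2.1 ζ hζ
    linarith
  have c5 : Arr L (1 / 4) R (Cp * A) ρ (Ks 2 ρ) (ctr ρ) fun k ζ => cp β (ctr ρ k) ρ ζ * G ζ := by
    intro k _
    refine ⟨hCp (1 / 4) R A ρ G (ctr ρ k) (by norm_num) (by norm_num) hR hA hρ0 hG,
      fun ζ hζ => ?_⟩
    by_contra hcon
    rw [not_le] at hcon
    apply hζ
    have e1 : cp β (ctr ρ k) ρ ζ = 0 := by
      unfold cp
      apply hβ.2.1
      rw [norm_smul, Real.norm_eq_abs, abs_of_pos (inv_pos.2 hρ0), ← div_eq_inv_mul,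
        one_le_div hρ0]
      nlinarith
    show cp β (ctr ρ k) ρ ζ * G ζ = 0
    rw [e1, zero_mul]
  have hfin := hBd R Λ K ρ M n hR hK hρ0 hM1 c1 c2 c3 hn (Fin 2 → ℤ) (Ks 2 ρ) (ctr ρ) (Cp * A) H
    (fun k ζ => cp β (ctr ρ k) ρ ζ * G ζ) X (by positivity) hH
    (hΛH.trans (by nlinarith [mul_nonneg hA.le (by linarith : (0 : ℝ) ≤ R)]))
    c4 (fun k hk => ctr_le hρ0 hρ1 hk) c5 hX (by
      rw [hρ]
      exact hbr)
  refine hfin.trans ?_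
  have f1 := intsum hPUS hCPS hβ hρ0 (Ks 2 ρ) hG.1 hG4
  have f2 : C * R ^ ε * Λ ^ (-cb₀) * (Cp * A) ^ (4 / 3 : ℝ) * R ^ (1 / 3 : ℝ) =
      C * Cp ^ (4 / 3 : ℝ) * R ^ ε * Λ ^ (-cb₀) * A ^ (4 / 3 : ℝ) * R ^ (1 / 3 : ℝ) := by
    rw [Real.mul_rpow hCp0.le hA.le]
    ring
  rw [f2]
  refine mul_le_mul_of_nonneg_left f1 ?_
  have : 0 < Λ := by linarith
  have : 0 < R := by linarith
  positivity

end Pool.Agent.H86.LB
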